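import Pool.Agent.helper87.X4.Spec

/-! Row M3 of project X4. -/

set_option autoImplicit false

namespace Pool.Agent.X4

open Matrix Pool.Agent.PL

theorem M3_up_zero {N : ℕ} (F : Type) [Field F] [CharZero F] (m : ℕ) :
    up F (0 : Tn N m ℚ) = 0 := by
  funext I
  simp [up]

theorem M3_up_add {N : ℕ} (F : Type) [Field F] [CharZero F] (m : ℕ) (s t : Tn N m ℚ) :
    up F (s + t) = up F s + up F t := by
  funext I
  simp [up]

theorem M3_up_smul {N : ℕ} (F : Type) [Field F] [CharZero F] (m : ℕ) (c : ℚ) (t : Tn N m ℚ) :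
    up F (c • t) = (c : F) • up F t := by
  funext I
  simp [up]

theorem M3_der_zero {N : ℕ} (F : Type) [Field F] (m : ℕ) (X : Matrix (Fin N) (Fin N) F) :
    der X m (0 : Tn N m F) = 0 := by
  funext I
  simp [der]

/-- Conjugation of the killing condition. -/
theorem M3_conj (hDC : DC_stmt) (hTP : TP_stmt) (F : Type) [Field F] [CharZero F] (N : ℕ)
    (P Pi A : Matrix (Fin N) (Fin N) F) (h1 : P * Pi = 1) (h2 : Pi * P = 1) (m : ℕ)
    (t : Tn N m ℚ) :
    der (Pi * A * P) m (up F t) = 0 ↔ der A m (tp P m *ᵥ up F t) = 0 := by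
  have e1 : tp Pi m *ᵥ (tp P m *ᵥ up F t) = up F t := by
    rw [Matrix.mulVec_mulVec, ← (hTP N m F Pi P).1, h2, (hTP N m F Pi P).2, Matrix.one_mulVec]
  have e2 := hDC N m F Pi P A h2 h1 (tp P m *ᵥ up F t)
  rw [e1] at e2
  constructor
  · intro h
    rw [h] at e2
    have e3 : tp P m *ᵥ (tp Pi m *ᵥ der A m (tp P m *ᵥ up F t)) =
        der A m (tp P m *ᵥ up F t) := by
      rw [Matrix.mulVec_mulVec, ← (hTP N m F P Pi).1, h1, (hTP N m F P Pi).2,
        Matrix.one_mulVec]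
    rw [← e3, e2, Matrix.mulVec_zero]
  · intro h
    rw [← e2, h, Matrix.mulVec_zero]

/-- Finite intersections of the subgroups of GF. -/
theorem M3_finset (hGF : GF_stmt) (F : Type) [NormedField F] [CharZero F] (N : ℕ) (E : Type)
    (D : Datum F N E) (Γ : Type) [Group Γ] [TopologicalSpace Γ] [IsTopologicalGroup Γ]
    [CompactSpace Γ] (ga : Gal D Γ) (m : ℕ) (S : Finset (Tn N m ℚ))
    (hS : ∀ t ∈ S, t ∈ D.AH m) :
    ∃ U : Subgroup Γ, IsOpen (U : Set Γ) ∧ ∀ σ ∈ U, ∀ t ∈ S,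
      tp (ga.R σ) m *ᵥ D.cls D.base m t = D.cls D.base m t := by
  classical
  induction S using Finset.induction_on with
  | empty =>
    refine ⟨⊤, ?_, ?_⟩
    · rw [Subgroup.coe_top]
      exact isOpen_univ
    · intro σ _ t ht
      simp at ht
  | insert a S ha ih =>
    obtain ⟨U, hU, hU2⟩ := ih fun t ht => hS t (Finset.mem_insert_of_mem ht)
    obtain ⟨haH, haE⟩ := hS a (Finset.mem_insert_self a S)
    obtain ⟨V, hV, hV2⟩ := hGF F N E D Γ ga m a (fun σ => haE (ga.tw σ)) haH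
    refine ⟨U ⊓ V, ?_, ?_⟩
    · rw [Subgroup.coe_inf]
      exact hU.inter hV
    · intro σ hσ t ht
      obtain ⟨hσU, hσV⟩ := Subgroup.mem_inf.mp hσ
      rcases Finset.mem_insert.mp ht with rfl | ht
      · exact hV2 σ hσV
      · exact hU2 σ hσU t ht

theorem M3 (hM1K : M1K_stmt) (hLG : LG_stmt) (hGF : GF_stmt) (hNB : NB_stmt) (hDC : DC_stmt)
    (hDL : DL_stmt) (_hDB : DB_stmt) (hTP : TP_stmt) : M3_stmt := by
  intro F _ _ _ l hl hlF N E D hcont π hπ h2 h4 Γ _ _ _ _ ga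
  classical
  -- the finite set
  obtain ⟨S2, hS2⟩ : (D.Hodge D.base 2).FG := IsNoetherian.noetherian (D.Hodge D.base 2)
  have hS2H : ∀ t ∈ S2, t ∈ D.Hodge D.base 2 := by
    intro t ht
    rw [← hS2]
    exact Submodule.subset_span ht
  obtain ⟨U2, hU2, hU2'⟩ := M3_finset hGF F N E D Γ ga 2 S2 fun t ht => h2 t (hS2H t ht)
  obtain ⟨U4, hU4, hU4'⟩ := M3_finset hGF F N E D Γ ga 4 {tau (D.Q D.base) π} (by
    intro t ht
    rw [Finset.mem_singleton] at ht
    rw [ht]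
    exact h4)
  have hl0 : 0 < ‖(l : F)‖ := by
    rw [norm_pos_iff]
    exact Nat.cast_ne_zero.mpr hl.ne_zero
  have hc0 : 0 < ‖(l : F)‖ ^ 2 := by positivity
  have hc1 : ‖(l : F)‖ ^ 2 < 1 := pow_lt_one₀ hl0.le hlF (by norm_num)
  obtain ⟨U0, hU0, hU0'⟩ := hNB F N Γ ga.R ga.cont (‖(l : F)‖ ^ 2) hc0 hc1
  obtain ⟨Pi, hPPi⟩ : ∃ Pi, D.P D.base * Pi = 1 := (D.isUnit D.base).exists_right_inv
  have hPiP : Pi * D.P D.base = 1 := mul_eq_one_comm.mp hPPi
  refine ⟨U0 ⊓ (U2 ⊓ U4), ?_, ?_⟩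
  · rw [Subgroup.coe_inf, Subgroup.coe_inf]
    exact hU0.inter (hU2.inter hU4)
  intro σ hσ m t ht
  obtain ⟨hσ0, hσ24⟩ := Subgroup.mem_inf.mp hσ
  obtain ⟨hσ2, hσ4⟩ := Subgroup.mem_inf.mp hσ24
  have key : tp (ga.R σ) m *ᵥ D.cls D.base m t = D.cls D.base m t := by
    refine hLG F l hl hlF N
      ((S2.image fun s => (⟨2, D.cls D.base 2 s⟩ : Σ m : ℕ, Tn N m F)) ∪
        {(⟨4, D.cls D.base 4 (tau (D.Q D.base) π)⟩ : Σ m : ℕ, Tn N m F)}) m
      (D.cls D.base m t) ?_ (ga.R σ) (fun i j => hU0' σ hσ0 i j) ?_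
    · intro A hA
      have hA2 : ∀ s ∈ S2, der A 2 (D.cls D.base 2 s) = 0 := fun s hs =>
        hA ⟨2, D.cls D.base 2 s⟩ (Finset.mem_union_left _ (Finset.mem_image_of_mem _ hs))
      have hA4 : der A 4 (D.cls D.base 4 (tau (D.Q D.base) π)) = 0 :=
        hA ⟨4, D.cls D.base 4 (tau (D.Q D.base) π)⟩
          (Finset.mem_union_right _ (Finset.mem_singleton_self _))
      have hB := hM1K F N E D hcont π hπ F (Pi * A * D.P D.base) (by
        intro n s hs
        rcases hs with ⟨rfl, hs⟩ | ⟨rfl, rfl⟩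
        · rw [← hS2] at hs
          induction hs using Submodule.span_induction with
          | mem x hx =>
            rw [M3_conj hDC hTP F N (D.P D.base) Pi A hPPi hPiP 2 x]
            exact hA2 x hx
          | zero => rw [M3_up_zero, M3_der_zero]
          | add x y _ _ hx hy =>
            rw [M3_up_add, (hDL N 2 F (Pi * A * D.P D.base) 0 (up F x) (up F y) 0).2.2.1, hx, hy,
              add_zero]
          | smul c x _ hx =>
            rw [M3_up_smul, (hDL N 2 F (Pi * A * D.P D.base) 0 0 (up F x) (c : F)).2.2.2.1, hx,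
              smul_zero]
        · rw [M3_conj hDC hTP F N (D.P D.base) Pi A hPPi hPiP 4 _]
          exact hA4) m t ht
      rw [M3_conj hDC hTP F N (D.P D.base) Pi A hPPi hPiP m t] at hB
      exact hB
    · intro s hs
      rcases Finset.mem_union.mp hs with hs | hs
      · obtain ⟨x, hx, rfl⟩ := Finset.mem_image.mp hs
        exact hU2' σ hσ2 x hx
      · rw [Finset.mem_singleton] at hs
        subst hs
        exact hU4' σ hσ4 _ (Finset.mem_singleton_self _)
  refine ⟨key, ?_, ?_⟩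
  · have htH : t ∈ D.Hodge D.base m := ht.1
    intro z
    have := htH z
    rw [ga.tw_h σ]
    exact this
  · have e1 : D.cls (ga.tw σ) m t = tp (ga.R σ) m *ᵥ D.cls D.base m t := by
      unfold Datum.cls
      rw [ga.tw_P σ, (hTP N m F (ga.R σ) (D.P D.base)).1, Matrix.mulVec_mulVec]
    rw [e1, key]

end Pool.Agent.X4
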